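import Pool.Agent.H176R2.R5.FN

/-!
# Graphs of maximum degree five in the generic three-dimensional rigidity matroid
-/

set_option autoImplicit false

namespace Pool.Agent.Results.MP_98a5df_co.MaxDegreeFive

open H176R2.R5

/-- The conjecture of Jackson and Jordán.  For every finite simple graph `G` with all degrees at most
five (in particular for every `5`-regular graph) the following are equivalent: `G` is
`(3,6)`-sparse; the rows of the rigidity matrix of `G` are linearly independent at every generic
placement; they are linearly independent at some placement. -/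
theorem result :
    ∀ (V : Type) [Fintype V] (G : SimpleGraph V), (∀ v, (G.neighborSet v).ncard ≤ 5) →
      (Sparse36 G ↔ ∀ p : V → Fin 3 → ℝ, Generic p → RowInd G p) ∧
      (Sparse36 G ↔ ∃ p : V → Fin 3 → ℝ, RowInd G p) := by
  intro V _ G hd
  obtain ⟨q, hq⟩ := exists_generic V
  exact ⟨⟨fun hS p hp => rowInd_of_sparse hd hS hp, fun h => sparse_of_rowInd (h q hq)⟩,
    ⟨fun hS => ⟨q, rowInd_of_sparse hd hS hq⟩, fun ⟨p, hp⟩ => sparse_of_rowInd hp⟩⟩

end Pool.Agent.Results.MP_98a5df_co.MaxDegreeFive
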